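import Mathlib

set_option autoImplicit false

namespace Pool.Agent.KS6_87.CZDS

open Polynomial Finset

/-- positive roots with multiplicity -/
noncomputable def Zp (f : ℝ[X]) : ℕ := (f.roots.filter (0 < ·)).card

noncomputable def D (α : ℝ) (f : ℝ[X]) : ℝ[X] := X * derivative f - C α * f

lemma coeff_D (α : ℝ) (f : ℝ[X]) (k : ℕ) : (D α f).coeff k = (k - α) * f.coeff k := by
  rcases k with _ | k
  · simp [D]
  · simp only [D, coeff_sub, coeff_X_mul, coeff_derivative, coeff_C_mul]; push_cast; ring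

lemma rolle (α : ℝ) (f : ℝ[X]) (hD : D α f ≠ 0) : Zp f ≤ Zp (D α f) + 1 := by
  classical
  have hf : f ≠ 0 := by rintro rfl; simp [D] at hD
  set S := (f.roots.filter (0 < ·)).toFinset with hS
  set T := ((D α f).roots.filter (0 < ·)).toFinset with hT
  have mS : ∀ x, x ∈ S ↔ f.eval x = 0 ∧ 0 < x := fun x => by
    simp [hS, hf]
  have mT : ∀ x, x ∈ T ↔ (D α f).eval x = 0 ∧ 0 < x := fun x => by
    simp [hT, hD]
  have h1 : S.card ≤ (T \ S).card + 1 := by
    refine Finset.card_le_sdiff_of_interleaved fun x hx y hy hxy _ => ?_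
    rw [mS] at hx hy
    have hd : ∀ z, 0 < z → HasDerivAt (fun z : ℝ => z ^ (-α) * f.eval z)
        (z ^ (-α - 1) * (D α f).eval z) z := fun z hz => by
      have := (Real.hasDerivAt_rpow_const (p := -α) (Or.inl hz.ne')).mul (f.hasDerivAt z)
      refine this.congr_deriv ?_
      have e : z ^ (-α) = z ^ (-α - 1) * z := by
        rw [Real.rpow_sub_one hz.ne']; field_simp
      rw [e]; simp only [D, eval_sub, eval_mul, eval_X, eval_C]; ring
    obtain ⟨z, hz1, hz2⟩ := exists_hasDerivAt_eq_zero hxy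
      (fun z hz => (hd z (hx.2.trans_le hz.1)).continuousAt.continuousWithinAt)
      (by simp [hx.1, hy.1]) (fun z hz => hd z (hx.2.trans hz.1))
    have hz : 0 < z := hx.2.trans hz1.1
    refine ⟨z, (mT z).2 ⟨?_, hz⟩, hz1⟩
    exact (mul_eq_zero.1 hz2).resolve_left (Real.rpow_pos_of_pos hz _).ne'
  have h2 : ∀ x, f.rootMultiplicity x - 1 ≤ (D α f).rootMultiplicity x := fun x => by
    rw [le_rootMultiplicity_iff hD]
    refine dvd_sub (Dvd.dvd.mul_left ?_ _) (Dvd.dvd.mul_left ?_ _)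
    · exact pow_sub_one_dvd_derivative_of_pow_dvd (pow_rootMultiplicity_dvd f x)
    · exact (pow_dvd_pow _ (Nat.sub_le _ _)).trans (pow_rootMultiplicity_dvd f x)
  have cS : ∀ x ∈ S, (f.roots.filter (0 < ·)).count x = f.rootMultiplicity x := fun x hx => by
    rw [Multiset.count_filter_of_pos ((mS x).1 hx).2, count_roots]
  have cT : ∀ x, 0 < x → ((D α f).roots.filter (0 < ·)).count x = (D α f).rootMultiplicity x :=
    fun x hx => by rw [Multiset.count_filter_of_pos hx, count_roots]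
  have e1 : Zp f = ∑ x ∈ S, f.rootMultiplicity x := by
    rw [Zp, ← Multiset.toFinset_sum_count_eq]; exact sum_congr rfl cS
  have e2 : ∑ x ∈ S ∪ T, ((D α f).roots.filter (0 < ·)).count x = Zp (D α f) := by
    rw [Zp, ← Multiset.toFinset_sum_count_eq, ← Finset.sum_subset Finset.subset_union_right]
    intro x _ hx
    simpa only [hT, Multiset.mem_toFinset, Multiset.count_eq_zero] using hx
  rw [← Finset.union_sdiff_self_eq_union, Finset.sum_union Finset.disjoint_sdiff] at e2
  have h3 : ∑ x ∈ S, f.rootMultiplicity x ≤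
      ∑ x ∈ S, (((D α f).roots.filter (0 < ·)).count x + 1) := by
    refine sum_le_sum fun x hx => ?_
    rw [cT x ((mS x).1 hx).2]; have := h2 x; omega
  have h4 : (T \ S).card ≤ ∑ x ∈ T \ S, ((D α f).roots.filter (0 < ·)).count x := by
    rw [card_eq_sum_ones]
    refine sum_le_sum fun x hx => ?_
    rw [Nat.succ_le_iff, Multiset.count_pos, ← Multiset.mem_toFinset]
    exact (Finset.mem_sdiff.1 hx).1
  have h5 : ∀ x ∈ S, f.rootMultiplicity x ≤ ((D α f).roots.filter (0 < ·)).count x + 1 :=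
    fun x hx => by rw [cT x ((mS x).1 hx).2]; have := h2 x; omega
  rw [sum_add_distrib, ← card_eq_sum_ones] at h3
  omega

/-- weights -/
noncomputable def w (A : Finset ℕ) (k : ℕ) : ℝ := ∏ i ∈ A, ((k : ℝ) - (i + 1 / 2))

lemma half_ne (k i : ℕ) : (k : ℝ) - (i + 1 / 2) ≠ 0 := by
  intro h
  have : (2 * k : ℝ) = 2 * i + 1 := by linarith
  have : 2 * k = 2 * i + 1 := by exact_mod_cast this
  omega

lemma w_ne (A : Finset ℕ) (k : ℕ) : w A k ≠ 0 := prod_ne_zero_iff.2 fun i _ => half_ne k i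

lemma rolle_iter (A : Finset ℕ) (f : ℝ[X]) (hf : f ≠ 0) :
    ∃ g : ℝ[X], (∀ k, g.coeff k = w A k * f.coeff k) ∧ Zp f ≤ Zp g + A.card := by
  classical
  induction A using Finset.induction_on with
  | empty => exact ⟨f, by simp [w], by simp⟩
  | insert i A hi ih =>
    obtain ⟨g, hg, hz⟩ := ih
    have hc : ∀ k, (D (i + 1 / 2) g).coeff k = w (insert i A) k * f.coeff k := fun k => by
      rw [coeff_D, hg, w, w, prod_insert hi]; ring
    refine ⟨D (i + 1 / 2) g, hc, ?_⟩
    have : D (i + 1 / 2) g ≠ 0 := fun h => hf (by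
      ext k; have := hc k; rw [h] at this
      simpa [w_ne] using this.symm)
    have := rolle _ g this
    rw [card_insert_of_notMem hi]; omega

/-- supporting parabola -/
lemma conc (ψ : ℕ → ℝ) (c : ℝ) (h : ∀ n, ψ n + ψ (n + 2) + 2 * c ≤ 2 * ψ (n + 1)) (v : ℕ) :
    ∃ u : ℝ, ∀ k : ℕ, ψ k + c * ((k : ℝ) - v) ^ 2 ≤ ψ v + u * (k - v) := by
  set χ : ℕ → ℝ := fun k => ψ k + c * (k : ℝ) ^ 2 with hχ
  have ha : Antitone fun n => χ (n + 1) - χ n := antitone_nat_of_succ_le fun n => by
    have := h n; simp only [hχ]; push_cast; nlinarith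
  set δ := χ (v + 1) - χ v
  have up : ∀ m : ℕ, χ (v + m) ≤ χ v + δ * m := fun m => by
    induction m with
    | zero => simp
    | succ m ih =>
      have := ha (Nat.le_add_right v m)
      simp only at this; rw [← add_assoc]; push_cast; linarith
  have dn : ∀ m k : ℕ, k + m = v → χ k ≤ χ v - δ * m := fun m => by
    induction m with
    | zero => rintro k rfl; simp
    | succ m ih =>
      intro k hk
      have := ha (show k ≤ v by omega)
      have := ih (k + 1) (by omega)
      simp only at *; push_cast; linarith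
  refine ⟨δ - 2 * c * v, fun k => ?_⟩
  have : χ k ≤ χ v + δ * (k - v) := by
    rcases le_total v k with hk | hk
    · obtain ⟨m, rfl⟩ := Nat.exists_eq_add_of_le hk
      have := up m; push_cast; linarith
    · obtain ⟨m, hm⟩ := Nat.exists_eq_add_of_le hk
      have := dn m k hm.symm; rw [hm]; rw [hm] at this; push_cast; linarith
  simp only [hχ] at this; nlinarith

lemma twoside (g : ℕ → ℝ) (B : ℝ) (h0 : ∀ m, 0 ≤ g m) (hB : ∀ N, ∑ m ∈ range N, g m ≤ B)
    (n t : ℕ) (A : Finset ℕ) (ρ : ℕ → ℝ) (h1 : ∀ i ∈ A, i < n → ρ i ≤ g (n - 1 - i))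
    (h2 : ∀ i ∈ A, n ≤ i → i < n + t → ρ i ≤ 0) (h3 : ∀ i ∈ A, n + t ≤ i → ρ i ≤ g (i - (n + t))) :
    ∑ i ∈ A, ρ i ≤ 2 * B := by
  set β : ℕ → ℝ := fun i => if i < n then g (n - 1 - i) else if n + t ≤ i then g (i - (n + t))
    else 0 with hβ
  have b0 : ∀ i, 0 ≤ β i := fun i => by simp only [hβ]; split_ifs <;> simp [h0]
  obtain ⟨N, hN⟩ := A.exists_nat_subset_range
  calc ∑ i ∈ A, ρ i ≤ ∑ i ∈ A, β i := sum_le_sum fun i hi => by
        simp only [hβ]; split_ifs with a b
        exacts [h1 i hi a, h3 i hi b, h2 i hi (by omega) (by omega)]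
    _ ≤ ∑ i ∈ range (n + t + N), β i :=
        sum_le_sum_of_subset_of_nonneg (hN.trans (range_mono (by omega))) fun i _ _ => b0 i
    _ ≤ 2 * B := by
        rw [sum_range_add, sum_range_add]
        have e1 : ∑ i ∈ range n, β i = ∑ i ∈ range n, g i := by
          rw [← sum_range_reflect g n]
          exact sum_congr rfl fun i hi => by simp only [hβ, mem_range.1 hi, if_true]
        have e2 : ∑ i ∈ range t, β (n + i) = 0 := sum_eq_zero fun i hi => by
          have := mem_range.1 hi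
          simp only [hβ]; rw [if_neg (by omega), if_neg (by omega)]
        have e3 : ∑ i ∈ range N, β (n + t + i) = ∑ i ∈ range N, g i := sum_congr rfl fun i _ => by
          simp only [hβ]; rw [if_neg (by omega), if_pos (by omega), Nat.add_sub_cancel_left]
        rw [e1, e2, e3]; linarith [hB n, hB N]

lemma wconc (A : Finset ℕ) (n : ℕ) :
    2 * Real.log |w A (n + 1)| ≤ Real.log |w A n| + Real.log |w A (n + 2)| + 2 * Real.log 3 := by
  have L : ∀ k, Real.log |w A k| = ∑ i ∈ A, Real.log ((k : ℝ) - (i + 1 / 2)) := fun k => by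
    rw [Real.log_abs, w, Real.log_prod fun i _ => half_ne k i]
  set H : ℕ → ℝ := fun m => Real.log (m + 3 / 2) - Real.log (m + 1 / 2) with hH
  have H0 : ∀ m, 0 ≤ H m := fun m =>
    sub_nonneg.2 (Real.log_le_log (by positivity) (by linarith))
  have H1 : H 0 = Real.log 3 := by
    simp only [hH]; rw [← Real.log_div (by norm_num) (by norm_num)]; norm_num
  have H2 : ∀ m : ℕ, H m - H (m + 1) =
      2 * Real.log (m + 3 / 2) - Real.log (m + 1 / 2) - Real.log (m + 5 / 2) := fun m => by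
    simp only [hH]; push_cast
    rw [show (m : ℝ) + 1 + 3 / 2 = m + 5 / 2 by ring, show (m : ℝ) + 1 + 1 / 2 = m + 3 / 2 by ring]
    ring
  have := twoside (fun m => H m - H (m + 1)) (Real.log 3) (fun m => by
      rw [H2]
      have : Real.log ((m + 1 / 2) * (m + 5 / 2)) ≤ Real.log ((m + 3 / 2) ^ 2) :=
        Real.log_le_log (by positivity) (by nlinarith)
      rw [Real.log_mul (by positivity) (by positivity), Real.log_pow] at this
      push_cast at this; linarith)
    (fun N => by rw [sum_range_sub']; linarith [H0 N]) n 2 A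
    (fun i => 2 * Real.log (((n + 1 : ℕ) : ℝ) - (i + 1 / 2)) - Real.log ((n : ℝ) - (i + 1 / 2))
      - Real.log (((n + 2 : ℕ) : ℝ) - (i + 1 / 2)))
    (fun i _ hi => by
      obtain ⟨m, rfl⟩ := Nat.exists_eq_add_of_lt hi
      simp only [H2]; rw [show i + m + 1 - 1 - i = m by omega]; push_cast
      apply le_of_eq; congr 1 <;> [congr 1; skip] <;> [congr 2; congr 1; congr 1] <;> ring)
    (fun i _ h1 h2 => by
      have l3 : Real.log (1 / 2) ≤ Real.log (3 / 2) := Real.log_le_log (by norm_num) (by norm_num)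
      rcases (show i = n ∨ i = n + 1 by omega) with rfl | rfl
      · push_cast
        rw [show (i : ℝ) + 1 - (i + 1 / 2) = 1 / 2 by ring,
          show (i : ℝ) - (i + 1 / 2) = -(1 / 2) by ring,
          show (i : ℝ) + 2 - (i + 1 / 2) = 3 / 2 by ring, Real.log_neg_eq_log]
        linarith
      · push_cast
        rw [show (n : ℝ) + 1 - (n + 1 + 1 / 2) = -(1 / 2) by ring,
          show (n : ℝ) - (n + 1 + 1 / 2) = -(3 / 2) by ring,
          show (n : ℝ) + 2 - (n + 1 + 1 / 2) = 1 / 2 by ring, Real.log_neg_eq_log,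
          Real.log_neg_eq_log]
        linarith)
    (fun i _ hi => by
      obtain ⟨m, rfl⟩ := Nat.exists_eq_add_of_le hi
      simp only [H2]; rw [Nat.add_sub_cancel_left]; push_cast
      rw [show (n : ℝ) + 1 - (n + 2 + m + 1 / 2) = -(m + 3 / 2) by ring,
        show (n : ℝ) - (n + 2 + m + 1 / 2) = -(m + 5 / 2) by ring,
        show (n : ℝ) + 2 - (n + 2 + m + 1 / 2) = -(m + 1 / 2) by ring, Real.log_neg_eq_log,
        Real.log_neg_eq_log, Real.log_neg_eq_log]
      linarith)
  rw [sum_sub_distrib, sum_sub_distrib, ← mul_sum, ← L, ← L, ← L] at this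
  linarith

/-- the domination constant -/
noncomputable def c₀ : ℝ := Real.log (20 / 9)

lemma geo (A : Finset ℕ) (v : ℕ) (hv : v ∉ A) :
    ∑ k ∈ A, Real.exp (-(c₀ * ((k : ℝ) - v) ^ 2)) < 1 := by
  have key : ∀ (m : ℕ) (x : ℝ), x ^ 2 = (m + 1) ^ 2 →
      Real.exp (-(c₀ * x ^ 2)) ≤ 9 / 20 * (23 / 250) ^ m := fun m x hx => by
    have e : Real.exp (-(c₀ * x ^ 2)) = (9 / 20) ^ ((m + 1) ^ 2) := by
      rw [hx, ← Real.exp_log (show (0 : ℝ) < 9 / 20 by norm_num), ← Real.exp_nat_mul, c₀,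
        show (9 / 20 : ℝ) = (20 / 9)⁻¹ by norm_num, Real.log_inv]
      congr 1; push_cast; ring
    rw [e]
    calc ((9 : ℝ) / 20) ^ ((m + 1) ^ 2) ≤ (9 / 20) ^ (1 + 3 * m) :=
          pow_le_pow_of_le_one (by norm_num) (by norm_num) (by
            rcases m with _ | m
            · simp
            · nlinarith)
      _ = 9 / 20 * ((9 / 20) ^ 3) ^ m := by rw [pow_add, pow_mul, pow_one]
      _ ≤ _ := by gcongr; norm_num
  have := twoside (fun m => 9 / 20 * (23 / 250 : ℝ) ^ m) (62 / 125) (fun m => by positivity)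
    (fun N => by
      rw [← mul_sum, geom_sum_eq (by norm_num)]
      have : (0 : ℝ) ≤ (23 / 250) ^ N := by positivity
      rw [← mul_div_assoc, div_le_iff_of_neg (by norm_num)]; linarith) v 1 A
    (fun k => Real.exp (-(c₀ * ((k : ℝ) - v) ^ 2)))
    (fun i _ hi => by
      obtain ⟨m, rfl⟩ := Nat.exists_eq_add_of_lt hi
      rw [show i + m + 1 - 1 - i = m by omega]
      exact key m _ (by push_cast; ring))
    (fun i hi h1 h2 => absurd hi (by rwa [show i = v by omega]))
    (fun i _ hi => by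
      obtain ⟨m, rfl⟩ := Nat.exists_eq_add_of_le hi
      rw [Nat.add_sub_cancel_left]
      exact key m _ (by push_cast; ring))
  linarith

lemma dom (S V : Finset ℕ) (hV : V ⊆ S) (hne : V.Nonempty) (τ : ℕ → ℝ) (h0 : ∀ v ∈ V, 0 < τ v)
    (h : ∀ k ∈ S, k ∉ V → ∃ v ∈ V, |τ k| ≤ Real.exp (-(c₀ * ((k : ℝ) - v) ^ 2)) * τ v) :
    0 < ∑ k ∈ S, τ k := by
  rw [← sum_sdiff hV]
  have h1 : ∑ k ∈ S \ V, -τ k ≤
      ∑ k ∈ S \ V, ∑ v ∈ V, Real.exp (-(c₀ * ((k : ℝ) - v) ^ 2)) * τ v := by
    refine sum_le_sum fun k hk => ?_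
    obtain ⟨v, hv, hb⟩ := h k (mem_sdiff.1 hk).1 (mem_sdiff.1 hk).2
    exact ((neg_le_abs _).trans hb).trans (single_le_sum (f := fun v : ℕ =>
      Real.exp (-(c₀ * ((k : ℝ) - v) ^ 2)) * τ v)
      (fun v hv => mul_nonneg (Real.exp_pos _).le (h0 v hv).le) hv)
  rw [sum_comm, sum_neg_distrib] at h1
  have h2 : ∑ v ∈ V, ∑ k ∈ S \ V, Real.exp (-(c₀ * ((k : ℝ) - v) ^ 2)) * τ v < ∑ v ∈ V, τ v :=
    sum_lt_sum_of_nonempty hne fun v hv => by
      rw [← sum_mul]
      have := geo (S \ V) v (by simp [hv])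
      nlinarith [h0 v hv]
  linarith

lemma signs (V : Finset ℕ) (a x : ℕ → ℝ) (g : ℝ → ℝ) (hg : Continuous g)
    (hx : ∀ i ∈ V, ∀ j ∈ V, i < j → x i < x j) (hx0 : ∀ i, 0 < x i)
    (hs : ∀ v ∈ V, 0 < a v * g (x v)) :
    ∃ (A : Finset ℕ) (Z : Finset ℝ) (ε : ℝ), A.card = Z.card ∧ (∀ i ∈ A, ∃ v ∈ V, i < v) ∧
      (∀ z ∈ Z, 0 < z ∧ g z = 0 ∧ ∃ v ∈ V, z < x v) ∧ ∀ v ∈ V, 0 < ε * (w A v * a v) := by
  classical
  induction V using Finset.induction_on_max with
  | empty => exact ⟨∅, ∅, 1, by simp⟩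
  | insert j V hj ih =>
    have aj : a j ≠ 0 := by rintro h; simpa [h] using hs j (mem_insert_self _ _)
    rcases V.eq_empty_or_nonempty with rfl | hne
    · exact ⟨∅, ∅, a j, by simp [w, aj]⟩
    obtain ⟨A, Z, ε, hc, hA, hZ, hε⟩ := ih
      (fun i hi k hk => hx i (mem_insert_of_mem hi) k (mem_insert_of_mem hk))
      (fun v hv => hs v (mem_insert_of_mem hv))
    set i := V.max' hne
    have hi : i ∈ V := V.max'_mem hne
    have hAi : ∀ k ∈ A, k < i := fun k hk => by
      obtain ⟨v, hv, h⟩ := hA k hk; exact h.trans_le (V.le_max' v hv)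
    have wp : ∀ n, i ≤ n → 0 < w A n := fun n hn => prod_pos fun k hk => by
      have : ((k + 1 : ℕ) : ℝ) ≤ n := by exact_mod_cast (hAi k hk).trans_le hn
      push_cast at this; linarith
    have hij := hj i hi
    have ei : 0 < ε * a i := by
      have := hε i hi; rw [mul_left_comm] at this; exact (mul_pos_iff_of_pos_left (wp i le_rfl)).1 this
    have e0 : ε ≠ 0 := by rintro rfl; simp at ei
    rcases lt_or_gt_of_ne (mul_ne_zero e0 aj) with ej | ej
    · have xi := hx i (mem_insert_of_mem hi) j (mem_insert_self _ _) hij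
      have s1 := hs i (mem_insert_of_mem hi)
      have s2 := hs j (mem_insert_self _ _)
      have g1 : 0 < ε * g (x i) := by
        have := mul_pos ei s1
        by_contra h; nlinarith [mul_nonneg (sq_nonneg (a i)) (neg_nonneg.2 (not_lt.1 h))]
      have g2 : ε * g (x j) < 0 := by
        have := mul_neg_of_neg_of_pos ej s2
        by_contra h; nlinarith [mul_nonneg (sq_nonneg (a j)) (not_lt.1 h)]
      obtain ⟨z, hz, hz0⟩ := intermediate_value_Ioo' xi.le
        (f := fun z => ε * g z) (by fun_prop) ⟨g2, g1⟩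
      have zZ : z ∉ Z := fun h => by
        obtain ⟨_, _, v, hv, hzv⟩ := hZ z h
        rcases (V.le_max' v hv).lt_or_eq with h' | h'
        · linarith [hx v (mem_insert_of_mem hv) i (mem_insert_of_mem hi) h', hz.1]
        · rw [h'] at hzv; linarith [hz.1]
      have iA : i ∉ A := fun h => lt_irrefl _ (hAi i h)
      refine ⟨insert i A, insert z Z, -ε, by rw [card_insert_of_notMem iA,
        card_insert_of_notMem zZ, hc], ?_, ?_, ?_⟩
      · intro k hk
        refine ⟨j, mem_insert_self _ _, ?_⟩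
        rcases mem_insert.1 hk with rfl | hk
        exacts [hij, (hAi k hk).trans hij]
      · intro y hy
        rcases mem_insert.1 hy with rfl | hy
        · exact ⟨(hx0 i).trans hz.1, (mul_eq_zero.1 hz0).resolve_left e0, j, mem_insert_self _ _,
            hz.2⟩
        · obtain ⟨p, q, v, hv, r⟩ := hZ y hy
          exact ⟨p, q, v, mem_insert_of_mem hv, r⟩
      · intro v hv
        rw [w, prod_insert iA, ← w]
        rcases mem_insert.1 hv with rfl | hv
        · have : ((i + 1 : ℕ) : ℝ) ≤ v := by exact_mod_cast hij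
          push_cast at this
          have := mul_pos (mul_pos (show (0 : ℝ) < v - (i + 1 / 2) by linarith) (wp v hij.le))
            (neg_pos.2 ej)
          linarith
        · have : (v : ℝ) ≤ i := by exact_mod_cast V.le_max' v hv
          have := mul_pos (show (0 : ℝ) < (i + 1 / 2) - v by linarith) (hε v hv)
          linarith
    · refine ⟨A, Z, ε, hc, fun k hk => ⟨i, mem_insert_of_mem hi, hAi k hk⟩, fun y hy => ?_, ?_⟩
      · obtain ⟨p, q, v, hv, r⟩ := hZ y hy
        exact ⟨p, q, v, mem_insert_of_mem hv, r⟩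
      · intro v hv
        rcases mem_insert.1 hv with rfl | hv
        · have := mul_pos (wp v hij.le) ej; linarith
        · exact hε v hv

lemma eval_eq (f g : ℝ[X]) (γ : ℕ → ℝ) (hg : ∀ k, g.coeff k = γ k * f.coeff k) (x : ℝ) :
    g.eval x = ∑ k ∈ f.support, γ k * f.coeff k * x ^ k := by
  rw [eval_eq_sum, Polynomial.sum_eq_of_subset (s := f.support) _ (by simp)]
  · exact sum_congr rfl fun k _ => by rw [hg]
  · intro k hk; rw [mem_support_iff] at hk ⊢; rw [hg] at hk; exact right_ne_zero_of_mul hk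

lemma pos_le (γ : ℕ → ℝ) (hγ : ∀ k, 0 < γ k) (hK : ∀ k, 220 * γ k * γ (k + 2) ≤ γ (k + 1) ^ 2)
    (f g : ℝ[X]) (hg : ∀ k, g.coeff k = γ k * f.coeff k) : Zp f ≤ Zp g := by
  classical
  rcases eq_or_ne f 0 with rfl | hf
  · simp [Zp]
  have hg0 : g ≠ 0 := fun h => hf (by
    ext k; have := hg k; rw [h] at this; simpa [(hγ k).ne'] using this.symm)
  set S := f.support with hS
  set L : ℕ → ℝ := fun k => Real.log |f.coeff k| with hL
  have eL : ∀ k ∈ S, |f.coeff k| = Real.exp (L k) := fun k hk =>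
    (Real.exp_log (abs_pos.2 (mem_support_iff.1 hk))).symm
  set c := Real.log 3 + c₀ with hc
  set V := S.filter fun v => ∃ t : ℝ, ∀ k ∈ S, L k - c * (k : ℝ) ^ 2 + t * k ≤
    L v - c * (v : ℝ) ^ 2 + t * v with hV
  have hmax : ∀ t : ℝ, ∃ v ∈ V, ∀ k ∈ S, L k - c * (k : ℝ) ^ 2 + t * k ≤
      L v - c * (v : ℝ) ^ 2 + t * v := fun t => by
    obtain ⟨v, hv, h⟩ := exists_max_image S (fun k => L k - c * (k : ℝ) ^ 2 + t * k)
      (nonempty_support_iff.2 hf)
    exact ⟨v, mem_filter.2 ⟨hv, t, h⟩, h⟩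
  have hcen : ∀ v ∈ V, ∃ s : ℝ, ∀ k ∈ S, L k + Real.log (γ k) + s * k ≤
      -(c₀ * ((k : ℝ) - v) ^ 2) + (L v + Real.log (γ v) + s * v) := fun v hv => by
    obtain ⟨t, ht⟩ := (mem_filter.1 hv).2
    obtain ⟨u, hu⟩ := conc (fun k => Real.log (γ k) + c * (k : ℝ) ^ 2) c₀ (fun n => by
      have h1 : Real.log ((3 * (20 / 9) * (20 / 9)) ^ 2 * γ n * γ (n + 2)) ≤
          Real.log (γ (n + 1) ^ 2) := by
        have := mul_pos (hγ n) (hγ (n + 2))
        exact Real.log_le_log (by nlinarith) (by nlinarith [hK n])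
      rw [Real.log_mul (mul_pos (by norm_num) (hγ n)).ne' (hγ _).ne',
        Real.log_mul (by norm_num) (hγ _).ne', Real.log_pow, Real.log_pow,
        Real.log_mul (by norm_num) (by norm_num), Real.log_mul (by norm_num) (by norm_num)] at h1
      simp only [hc, c₀]; push_cast at h1 ⊢; nlinarith) v
    exact ⟨t - u, fun k hk => by have := ht k hk; have := hu k; nlinarith⟩
  choose! s hs using hcen
  have VS : V ⊆ S := filter_subset _ _
  have c0 : 0 < c₀ := Real.log_pos (by norm_num)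
  obtain ⟨A, Z, ε, hAZ, -, hZ, hε⟩ := signs V f.coeff (fun v => Real.exp (s v)) (fun x => g.eval x)
    g.continuous (fun i hi j hj hij => by
      have h1 := hs i hi j (VS hj)
      have h2 := hs j hj i (VS hi)
      have h3 : (0 : ℝ) < j - i := sub_pos.2 (by exact_mod_cast hij)
      have h4 := mul_pos c0 (pow_pos h3 2)
      rw [Real.exp_lt_exp]
      by_contra h
      nlinarith [mul_nonneg (sub_nonneg.2 (not_lt.1 h)) h3.le])
    (fun _ => Real.exp_pos _) (fun v hv => by
      simp only [eval_eq f g γ hg, mul_sum]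
      have e : ∀ k ∈ S, |f.coeff v * (γ k * f.coeff k * Real.exp (s v) ^ k)| =
          |f.coeff v| * Real.exp (L k + Real.log (γ k) + s v * k) := fun k hk => by
        rw [abs_mul, abs_mul, abs_mul, eL k hk, abs_of_pos (hγ k), abs_of_pos (pow_pos (Real.exp_pos _) k),
          Real.exp_add, Real.exp_add, Real.exp_log (hγ k), mul_comm (s v), Real.exp_nat_mul]
        ring
      have p : 0 < f.coeff v * (γ v * f.coeff v * Real.exp (s v) ^ v) := by
        have := mul_pos (mul_self_pos.2 (mem_support_iff.1 (VS hv)))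
          (mul_pos (hγ v) (pow_pos (Real.exp_pos (s v)) v))
        linarith
      refine dom S {v} (by simpa using VS hv) (by simp) _ (by simpa using p) fun k hk _ =>
        ⟨v, by simp, ?_⟩
      rw [← abs_of_pos p, e k hk, e v (VS hv), mul_left_comm, ← Real.exp_add]
      exact mul_le_mul_of_nonneg_left (Real.exp_le_exp.2 (hs v hv k hk)) (abs_nonneg _))
  obtain ⟨q, hq, hz⟩ := rolle_iter A f hf
  have hq0 : ∀ x, 0 < x → 0 < ε * q.eval x := fun x hx => by
    simp only [eval_eq f q _ hq, mul_sum]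
    obtain ⟨v₀, hv₀, -⟩ := hmax 0
    refine dom S V VS ⟨v₀, hv₀⟩ _ (fun v hv => ?_) fun k hk hkV => ?_
    · rw [← mul_assoc]; exact mul_pos (hε v hv) (pow_pos hx _)
    obtain ⟨u, hu⟩ := conc (fun k => -Real.log |w A k|) (-Real.log 3)
      (fun n => by linarith [wconc A n]) k
    obtain ⟨v, hv, h⟩ := hmax (Real.log x - u + 2 * c * k)
    refine ⟨v, hv, ?_⟩
    have e : ∀ k ∈ S, |ε * (w A k * f.coeff k * x ^ k)| =
        |ε| * Real.exp (L k + Real.log |w A k| + Real.log x * k) := fun k hk => by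
      rw [abs_mul, abs_mul, abs_mul, eL k hk, abs_of_pos (pow_pos hx k), Real.exp_add,
        Real.exp_add, Real.exp_log (abs_pos.2 (w_ne A k)), mul_comm (Real.log x),
        Real.exp_nat_mul, Real.exp_log hx]
      ring
    have p : 0 < ε * (w A v * f.coeff v * x ^ v) := by
      rw [← mul_assoc]; exact mul_pos (hε v hv) (pow_pos hx _)
    rw [← abs_of_pos p, e k hk, e v (VS hv), mul_left_comm, ← Real.exp_add]
    refine mul_le_mul_of_nonneg_left (Real.exp_le_exp.2 ?_) (abs_nonneg _)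
    have h1 := h k hk
    have h2 := hu v
    simp only [hc] at h1 h2; nlinarith
  have z0 : Zp q = 0 := by
    rw [Zp, Multiset.card_eq_zero, Multiset.filter_eq_nil]
    intro x hx h
    have := hq0 x h
    rw [(isRoot_of_mem_roots hx).eq_zero] at this; simp at this
  have z1 : Z.card ≤ Zp g := by
    refine Multiset.card_le_card ((Multiset.le_iff_subset Z.nodup).2 fun z hz => ?_)
    obtain ⟨p1, p2, -⟩ := hZ z hz
    exact Multiset.mem_filter.2 ⟨(mem_roots hg0).2 p2, p1⟩
  omega

lemma card_split (f : ℝ[X]) :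
    f.roots.card = Zp f + Zp (f.comp (-X)) + f.natTrailingDegree := by
  classical
  rw [Zp, Zp, roots_comp_neg_X, ← rootMultiplicity_eq_natTrailingDegree', ← count_roots,
    Multiset.filter_map, Multiset.card_map]
  induction f.roots using Multiset.induction_on with
  | empty => simp
  | cons a s ih =>
    simp only [Multiset.card_cons, Multiset.filter_cons, Multiset.count_cons, Function.comp,
      Multiset.card_add] at ih ⊢
    rcases lt_trichotomy a 0 with h | rfl | h
    · rw [if_neg (by linarith), if_pos (by linarith), if_neg h.ne']; simp at ih ⊢; omega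
    · simp at ih ⊢; omega
    · rw [if_pos h, if_neg (by linarith), if_neg h.ne]; simp at ih ⊢; omega

/-- Real zeros never decrease. -/
theorem roots_le (γ : ℕ → ℝ) (hγ : ∀ k, 0 < γ k)
    (hK : ∀ k, 220 * γ k * γ (k + 2) ≤ γ (k + 1) ^ 2)
    (f g : ℝ[X]) (hg : ∀ k, g.coeff k = γ k * f.coeff k) :
    f.roots.card ≤ g.roots.card ∧ g.natDegree = f.natDegree := by
  have hs : g.support = f.support := by ext k; simp [hg, (hγ k).ne']
  have h1 := pos_le γ hγ hK f g hg
  have h2 := pos_le γ hγ hK (f.comp (-X)) (g.comp (-X)) fun k => by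
    rw [show (-X : ℝ[X]) = C (-1) * X by simp, comp_C_mul_X_coeff, comp_C_mul_X_coeff, hg]; ring
  have h3 : g.natTrailingDegree = f.natTrailingDegree := by
    simp only [natTrailingDegree, trailingDegree, hs]
  refine ⟨by rw [card_split, card_split g]; omega, by simp only [natDegree, degree, hs]⟩

lemma nonreal (f : ℝ[X]) :
    ((f.map (algebraMap ℝ ℂ)).roots.filter (fun z : ℂ => z.im ≠ 0)).card + f.roots.card =
      f.natDegree := by
  classical
  have h1 : (f.map (algebraMap ℝ ℂ)).roots.filter (fun z : ℂ => ¬ z.im ≠ 0) =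
      f.roots.map (algebraMap ℝ ℂ) := by
    ext z
    by_cases hz : z.im = 0
    · obtain ⟨x, rfl⟩ : ∃ x : ℝ, z = algebraMap ℝ ℂ x := ⟨z.re, by
        apply Complex.ext <;> simp [hz]⟩
      rw [Multiset.count_filter_of_pos (by simp), Multiset.count_map_eq_count' _ _
        (algebraMap ℝ ℂ).injective, count_roots, count_roots,
        eq_rootMultiplicity_map (algebraMap ℝ ℂ).injective]
    · rw [Multiset.count_filter_of_neg (by simpa using hz), eq_comm, Multiset.count_eq_zero]
      intro h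
      obtain ⟨x, -, rfl⟩ := Multiset.mem_map.1 h
      simp at hz
  have h2 := congrArg Multiset.card
    (Multiset.filter_add_not (fun z : ℂ => z.im ≠ 0) (f.map (algebraMap ℝ ℂ)).roots)
  rw [Multiset.card_add, h1, Multiset.card_map,
    IsAlgClosed.card_roots_eq_natDegree (k := ℂ), natDegree_map] at h2
  exact h2

theorem czds (γ : ℕ → ℝ) (hγ : ∀ k, 0 < γ k) (hK : ∀ k, 220 * γ k * γ (k + 2) ≤ γ (k + 1) ^ 2)
    (f g : ℝ[X]) (hg : ∀ k, g.coeff k = γ k * f.coeff k) :
    ((g.map (algebraMap ℝ ℂ)).roots.filter (fun z : ℂ => z.im ≠ 0)).card ≤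
      ((f.map (algebraMap ℝ ℂ)).roots.filter (fun z : ℂ => z.im ≠ 0)).card := by
  have := roots_le γ hγ hK f g hg
  have := nonreal f
  have := nonreal g
  omega

lemma exp_pow (p : ℕ) (hp : 3 ≤ p) (k : ℕ) :
    220 * Real.exp (-((k : ℝ) ^ p)) * Real.exp (-(((k + 2 : ℕ) : ℝ) ^ p)) ≤
      Real.exp (-(((k + 1 : ℕ) : ℝ) ^ p)) ^ 2 := by
  have h : ∀ p, 3 ≤ p → 2 * (k + 1) ^ p + 6 ≤ k ^ p + (k + 2) ^ p := by
    intro p hp
    induction p, hp using Nat.le_induction with
    | base => exact le_of_eq_of_le rfl (by ring_nf; omega)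
    | succ p _ ih =>
      have : k ^ p ≤ (k + 2) ^ p := Nat.pow_le_pow_left (by omega) _
      simp only [pow_succ]; nlinarith
  have h' : 2 * ((k + 1 : ℕ) : ℝ) ^ p + 6 ≤ (k : ℝ) ^ p + ((k + 2 : ℕ) : ℝ) ^ p := by
    exact_mod_cast h p hp
  have e6 : (220 : ℝ) ≤ Real.exp 6 := by
    have := Real.exp_one_gt_d9
    calc (220 : ℝ) ≤ 2.7 ^ 6 := by norm_num
      _ ≤ Real.exp 1 ^ 6 := by gcongr; linarith
      _ = Real.exp 6 := by rw [← Real.exp_nat_mul]; norm_num
  calc _ ≤ Real.exp 6 * Real.exp (-((k : ℝ) ^ p)) * Real.exp (-(((k + 2 : ℕ) : ℝ) ^ p)) := by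
        gcongr
    _ ≤ _ := by
        rw [← Real.exp_add, ← Real.exp_add, ← Real.exp_nat_mul]
        exact Real.exp_le_exp.2 (by push_cast at h' ⊢; linarith)

end Pool.Agent.KS6_87.CZDS
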