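import Mathlib

/-! # Invariant maximal semidefinite subspaces for solvable Lie algebras of quaternion matrices -/

set_option autoImplicit false
set_option maxHeartbeats 400000

namespace Pool.Agent.KS6_87.Ham

open Quaternion MulOpposite TensorProduct

attribute [local instance 100] LieRing.ofAssociativeRing

/-- Lie's theorem for a real solvable Lie algebra acting on a complex vector space. -/
theorem lie_real {𝔤 : Type} [LieRing 𝔤] [LieAlgebra ℝ 𝔤] [LieAlgebra.IsSolvable 𝔤]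
    {W : Type} [AddCommGroup W] [Module ℂ W] [Module ℝ W] [IsScalarTower ℝ ℂ W]
    [Module.Finite ℂ W] [Nontrivial W]
    (ρ : 𝔤 →ₗ⁅ℝ⁆ Module.End ℂ W) : ∃ w : W, w ≠ 0 ∧ ∀ x : 𝔤, ∃ c : ℂ, ρ x w = c • w := by
  let σ0 : ℂ ⊗[ℝ] 𝔤 →ₗ[ℂ] Module.End ℂ W := (ρ : 𝔤 →ₗ[ℝ] Module.End ℂ W).liftBaseChange ℂ
  have hσ0 : ∀ (c : ℂ) (x : 𝔤), σ0 (c ⊗ₜ x) = c • ρ x := fun c x => by
    simp [σ0]
  let σ : ℂ ⊗[ℝ] 𝔤 →ₗ⁅ℂ⁆ Module.End ℂ W :=
    { σ0 with
      map_lie' := by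
        intro x y
        change σ0 ⁅x, y⁆ = ⁅σ0 x, σ0 y⁆
        induction x using TensorProduct.induction_on with
        | zero => simp
        | add a b ha hb => rw [add_lie, map_add, ha, hb, map_add, add_lie]
        | tmul s x =>
          induction y using TensorProduct.induction_on with
          | zero =>
            have h0 : ⁅s ⊗ₜ[ℝ] x, (0 : ℂ ⊗[ℝ] 𝔤)⁆ = 0 := lie_zero (L := ℂ ⊗[ℝ] 𝔤) _
            rw [h0, map_zero, lie_zero]
          | add a b ha hb =>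
            have h1 : ⁅s ⊗ₜ[ℝ] x, a + b⁆ = ⁅s ⊗ₜ[ℝ] x, a⁆ + ⁅s ⊗ₜ[ℝ] x, b⁆ :=
              lie_add (L := ℂ ⊗[ℝ] 𝔤) _ _ _
            rw [h1, map_add, ha, hb, map_add, lie_add]
          | tmul t y =>
            rw [LieAlgebra.ExtendScalars.bracket_tmul, hσ0, hσ0, hσ0, LieHom.map_lie, smul_lie,
              lie_smul, smul_smul] }
  let _ : LieRingModule (ℂ ⊗[ℝ] 𝔤) W := LieRingModule.compLieHom W σ
  have : LieModule ℂ (ℂ ⊗[ℝ] 𝔤) W := LieModule.compLieHom W σ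
  obtain ⟨χ, hχ⟩ := LieModule.exists_nontrivial_weightSpace_of_isSolvable ℂ (ℂ ⊗[ℝ] 𝔤) W
  obtain ⟨⟨v, hv⟩, hv0⟩ := exists_ne (0 : LieModule.weightSpace W χ)
  rw [LieModule.mem_weightSpace] at hv
  refine ⟨v, fun h => hv0 (by simpa using h), fun x => ⟨χ (1 ⊗ₜ x), ?_⟩⟩
  have h1 := hv (1 ⊗ₜ x)
  have h2 : ⁅(1 : ℂ) ⊗ₜ[ℝ] x, v⁆ = σ0 (1 ⊗ₜ x) v := rfl
  rw [h2, hσ0, one_smul] at h1
  exact h1

theorem eig0 {𝔤 : Type} [LieRing 𝔤] [LieAlgebra ℝ 𝔤] [LieAlgebra.IsSolvable 𝔤]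
    {W : Type} [AddCommGroup W] [Module ℍᵐᵒᵖ W] [Module ℝ W] [IsScalarTower ℝ ℍᵐᵒᵖ W]
    [Module.Finite ℝ W] [Nontrivial W] (q : 𝔤 → (W →ₗ[ℍᵐᵒᵖ] W))
    (hadd : ∀ A B w, q (A + B) w = q A w + q B w) (hsmul : ∀ (r : ℝ) A w, q (r • A) w = r • q A w)
    (hlie : ∀ A B w, q ⁅A, B⁆ w = q A (q B w) - q B (q A w)) :
    ∃ w : W, w ≠ 0 ∧ ∀ A, ∃ c : ℍᵐᵒᵖ, q A w = c • w := by
  let ι : ℂ →ₐ[ℝ] ℍᵐᵒᵖ := Quaternion.ofComplex.toOpposite fun x y => (Commute.all x y).map _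
  let _ : Module ℂ W := Module.compHom W ι.toRingHom
  have hsm : ∀ (z : ℂ) (w : W), z • w = ι z • w := fun _ _ => rfl
  have : IsScalarTower ℝ ℂ W := ⟨fun r z w => by rw [hsm, hsm, map_smul, smul_assoc]⟩
  have : Module.Finite ℂ W := Module.Finite.of_restrictScalars_finite ℝ ℂ _
  let ρ : 𝔤 →ₗ⁅ℝ⁆ Module.End ℂ W :=
    { toFun := fun A => ⟨(q A).toAddHom, fun z w => (q A).map_smul (ι z) w⟩
      map_add' := fun A B => LinearMap.ext fun w => hadd A B w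
      map_smul' := fun r A => LinearMap.ext fun w => hsmul r A w
      map_lie' := fun {A B} => LinearMap.ext fun w => hlie A B w }
  obtain ⟨w, hw, h⟩ := lie_real ρ
  refine ⟨w, hw, fun A => ?_⟩
  obtain ⟨c, hc⟩ := h A
  exact ⟨ι c, hc⟩

variable {n : ℕ}

instance : Module.Finite ℍᵐᵒᵖ (Fin n → ℍ) := Module.Finite.of_restrictScalars_finite ℝ _ _

/-- The quaternionic subspaces have the common eigenline property for `𝒜`. -/
def Tri (𝒜 : Set ((Fin n → ℍ) →ₗ[ℍᵐᵒᵖ] (Fin n → ℍ))) : Prop :=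
  ∀ L M : Submodule ℍᵐᵒᵖ (Fin n → ℍ), (∀ A ∈ 𝒜, ∀ x ∈ L, A x ∈ L) → (∀ A ∈ 𝒜, ∀ x ∈ M, A x ∈ M) →
    ∀ v ∈ M, v ∉ L → ∃ x ∈ M, x ∉ L ∧ ∀ A ∈ 𝒜, ∃ c : ℍᵐᵒᵖ, A x - c • x ∈ L

theorem tri_of_solvable {𝔤 : Type} [LieRing 𝔤] [LieAlgebra ℝ 𝔤] [LieAlgebra.IsSolvable 𝔤]
    (f : 𝔤 → ((Fin n → ℍ) →ₗ[ℍᵐᵒᵖ] (Fin n → ℍ)))
    (hadd : ∀ A B w, f (A + B) w = f A w + f B w) (hsmul : ∀ (r : ℝ) A w, f (r • A) w = r • f A w)
    (hlie : ∀ A B w, f ⁅A, B⁆ w = f A (f B w) - f B (f A w)) :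
    Tri (n := n) (Set.range f) := by
  intro L M hL hM v hv hv'
  have : Nontrivial (M ⧸ L.comap M.subtype) := Submodule.Quotient.nontrivial_iff.2 fun h =>
    hv' (show (⟨v, hv⟩ : M) ∈ L.comap M.subtype from h ▸ trivial)
  have : Module.Finite ℝ M := Module.Finite.trans ℍᵐᵒᵖ M
  have : Module.Finite ℝ (M ⧸ L.comap M.subtype) := Module.Finite.trans ℍᵐᵒᵖ _
  let q : 𝔤 → (M ⧸ L.comap M.subtype →ₗ[ℍᵐᵒᵖ] M ⧸ L.comap M.subtype) := fun A =>
    (L.comap M.subtype).mapQ (L.comap M.subtype) ((f A).restrict (hM _ ⟨A, rfl⟩))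
      fun x hx => hL _ ⟨A, rfl⟩ _ hx
  have hq : ∀ (A : 𝔤) (x : M), q A (Submodule.Quotient.mk x) =
      Submodule.Quotient.mk ⟨f A x, hM _ ⟨A, rfl⟩ _ x.2⟩ := fun _ _ => rfl
  obtain ⟨w, hw, h⟩ := eig0 q
    (fun A B w => by
      obtain ⟨x, rfl⟩ := Submodule.Quotient.mk_surjective _ w
      rw [hq, hq, hq, ← Submodule.Quotient.mk_add]
      congr 1
      ext1
      exact hadd A B x)
    (fun r A w => by
      obtain ⟨x, rfl⟩ := Submodule.Quotient.mk_surjective _ w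
      rw [hq, hq, ← Submodule.Quotient.mk_smul]
      congr 1
      ext1
      exact hsmul r A x)
    (fun A B w => by
      obtain ⟨x, rfl⟩ := Submodule.Quotient.mk_surjective _ w
      rw [hq, hq, hq, hq, hq, ← Submodule.Quotient.mk_sub]
      congr 1
      ext1
      exact hlie A B x)
  obtain ⟨x, rfl⟩ := Submodule.Quotient.mk_surjective _ w
  refine ⟨x, x.2, fun h => hw ((Submodule.Quotient.mk_eq_zero _).2 h), ?_⟩
  rintro _ ⟨A, rfl⟩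
  obtain ⟨c, hc⟩ := h A
  refine ⟨c, ?_⟩
  rw [hq, ← Submodule.Quotient.mk_smul, Submodule.Quotient.eq] at hc
  exact hc

variable (B : LinearMap.BilinForm ℝ (Fin n → ℍ)) (hs : ∀ x y, B x y = B y x)
  (hl : ∀ (c : ℍ) x y, B (op c • x) y = B x (op (star c) • y))

/-- The `B`-orthogonal subspace. -/
def perp (L : Submodule ℍᵐᵒᵖ (Fin n → ℍ)) : Submodule ℍᵐᵒᵖ (Fin n → ℍ) where
  carrier := {y | ∀ x ∈ L, B x y = 0}
  add_mem' h k x hx := by rw [map_add, h x hx, k x hx, add_zero]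
  zero_mem' x _ := map_zero _
  smul_mem' c y h x hx := by
    have := hl (star c.unop) x y
    rw [star_star, op_unop] at this
    exact this ▸ h _ (L.smul_mem _ hx)

include hs hl in
theorem line (x : Fin n → ℍ) (c d : ℍ) : B (op c • x) (op d • x) = (c * star d).re * B x x := by
  have h : ∀ e : ℍ, B (op e • x) x = e.re * B x x := fun e => by
    have h1 : B (op e • x) x = B (op (star e) • x) x := by rw [hl, hs]
    have h2 : op e • x + op (star e) • x = (2 * e.re) • x := by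
      rw [← add_smul, ← op_add, Quaternion.self_add_star']
      ext1 i
      simp [Quaternion.mul_coe_eq_smul, two_mul, add_smul]
    have h3 := congrArg (fun y => B y x) h2
    simp only [map_add, LinearMap.add_apply, map_smul, LinearMap.smul_apply, smul_eq_mul] at h3
    linarith
  rw [← star_star d, ← hl, smul_smul, ← op_mul, h, star_star]

variable (𝒜 : Set ((Fin n → ℍ) →ₗ[ℍᵐᵒᵖ] (Fin n → ℍ))) (ht : Tri 𝒜)
  (hA : ∀ A ∈ 𝒜, ∃ A' ∈ 𝒜, ∀ x y, B x (A y) = B (A' x) y)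

include hs hl ht hA in
theorem key 
    (L : Submodule ℍᵐᵒᵖ (Fin n → ℍ)) (hL : ∀ A ∈ 𝒜, ∀ x ∈ L, A x ∈ L) (k : ℕ) :
    ∀ M : Submodule ℍᵐᵒᵖ (Fin n → ℍ), Module.finrank ℍᵐᵒᵖ M = k →
      (∀ A ∈ 𝒜, ∀ x ∈ M, A x ∈ M) → L ≤ M →
      (∀ x ∈ L, ∀ y ∈ M, B x y = 0) → ∀ v ∈ M, v ∉ L → 0 ≤ B v v →
      ∃ x ∈ M, x ∉ L ∧ (∀ A ∈ 𝒜, ∃ c : ℍᵐᵒᵖ, A x - c • x ∈ L) ∧ 0 ≤ B x x := by
  induction k using Nat.strong_induction_on with
  | _ k ih =>
  intro M hk hM hLM ho v hv hv' hv0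
  obtain ⟨x, hx, hx', he⟩ := ht L M hL hM v hv hv'
  by_cases h0 : 0 ≤ B x x
  · exact ⟨x, hx, hx', he, h0⟩
  replace h0 := not_le.1 h0
  have mem : ∀ y, y ∈ perp B hl (ℍᵐᵒᵖ ∙ x) ↔ ∀ c : ℍᵐᵒᵖ, B (c • x) y = 0 := fun y =>
    ⟨fun h c => h _ (Submodule.mem_span_singleton.2 ⟨c, rfl⟩), fun h z hz => by
      obtain ⟨c, rfl⟩ := Submodule.mem_span_singleton.1 hz
      exact h c⟩
  let φ : ℍ →ₗ[ℝ] ℝ :=
    { toFun := fun c => (B x x)⁻¹ * B (op c • x) v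
      map_add' := fun a b => by simp [add_smul, mul_add]
      map_smul' := fun r a => by simp [smul_assoc, mul_left_comm] }
  obtain ⟨d, hd⟩ := (InnerProductSpace.toDual ℝ ℍ).surjective (LinearMap.toContinuousLinearMap φ)
  have h1 : v - op d • x ∈ perp B hl (ℍᵐᵒᵖ ∙ x) := (mem _).2 fun c => by
    have h2 : inner ℝ d c.unop = (B x x)⁻¹ * B (c • x) v := DFunLike.congr_fun hd c.unop
    rw [real_inner_comm, Quaternion.inner_def] at h2
    rw [map_sub, ← op_unop c, line B hs hl, h2, op_unop]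
    field_simp [h0.ne]
    ring
  have h2 := (mem _).1 h1 (op d)
  have h3 := line B hs hl x d d
  rw [Quaternion.self_mul_star, Quaternion.re_coe] at h3
  have h4 : B v v = B (v - op d • x) (v - op d • x) + normSq d * B x x := by
    simp only [map_sub, LinearMap.sub_apply, hs v (op d • x)] at h2 ⊢
    linarith
  have h5 := mul_nonpos_of_nonneg_of_nonpos (normSq_nonneg (a := d)) h0.le
  have h6 : v - op d • x ∈ M := sub_mem hv (M.smul_mem _ hx)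
  obtain ⟨y, hy, hy'⟩ := ih _ (hk ▸ Submodule.finrank_lt_finrank_of_lt (lt_of_le_of_ne inf_le_left
      fun h => h0.ne (by simpa using (mem x).1 (h.ge hx).2 1)))
    (M ⊓ perp B hl (ℍᵐᵒᵖ ∙ x)) rfl
    (fun A hAm y hy => ⟨hM A hAm y hy.1, (mem _).2 fun c => by
      obtain ⟨A', hA', hAA⟩ := hA A hAm
      obtain ⟨e, he⟩ := he A' hA'
      have e1 := ho _ (L.smul_mem c he) y hy.1
      have e2 := (mem y).1 hy.2 (c * e)
      have e3 := hAA (c • x) y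
      rw [smul_sub, smul_smul, map_sub, LinearMap.sub_apply, e2, ← map_smul A'] at e1
      linarith⟩)
    (fun y hy => ⟨hLM hy, (mem _).2 fun c => by rw [hs, ho y hy _ (M.smul_mem _ hx)]⟩)
    (fun y hy z hz => ho y hy z hz.1) _ ⟨h6, h1⟩
    (fun h => by
      rw [ho _ h _ h6, zero_add] at h4
      have : d = 0 := normSq_le_zero.1 (by nlinarith)
      exact hv' (by simpa [this] using h))
    (by linarith)
  exact ⟨y, hy.1, hy'⟩

include hs hl ht hA in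
theorem main
    (N : Submodule ℍᵐᵒᵖ (Fin n → ℍ)) (hN : ∀ A ∈ 𝒜, ∀ x ∈ N, A x ∈ N) (hN' : ∀ x ∈ N, 0 ≤ B x x) :
    ∃ L : Submodule ℍᵐᵒᵖ (Fin n → ℍ), N ≤ L ∧ (∀ A ∈ 𝒜, ∀ x ∈ L, A x ∈ L) ∧
      Maximal (fun M : Submodule ℍᵐᵒᵖ (Fin n → ℍ) => ∀ x ∈ M, 0 ≤ B x x) L := by
  obtain ⟨L, ⟨h1, h2a, h2b⟩, h3⟩ := set_has_maximal_iff_noetherian.2 inferInstance
    {L : Submodule ℍᵐᵒᵖ (Fin n → ℍ) | N ≤ L ∧ (∀ A ∈ 𝒜, ∀ x ∈ L, A x ∈ L) ∧ ∀ x ∈ L, 0 ≤ B x x}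
    ⟨N, le_rfl, hN, hN'⟩
  refine ⟨L, h1, h2a, h2b, fun L' hL' hle v hv => ?_⟩
  by_contra hv'
  obtain ⟨l, hl'⟩ : (B v).domRestrict (L.restrictScalars ℝ) ∈
      LinearMap.range (LinearMap.flip (B.restrict (L.restrictScalars ℝ))) := by
    rw [← LinearMap.dualAnnihilator_ker_eq_range_flip, Submodule.mem_dualAnnihilator]
    intro x hx
    have e0 : B x x = 0 := LinearMap.congr_fun hx x
    change B v x = 0
    by_contra e
    obtain ⟨t, ht⟩ : ∃ t, t * B v x = -(B v v + 1) / 2 := ⟨_, div_mul_cancel₀ _ e⟩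
    have := hL' _ (add_mem hv ((L'.restrictScalars ℝ).smul_mem t (hle x.2)))
    simp only [map_add, map_smul, LinearMap.add_apply, LinearMap.smul_apply, smul_eq_mul, e0,
      hs x v, add_zero, mul_zero, ht] at this
    linarith
  have h4 : v - l ∈ perp B hl L := fun x hx => by
    have e : B x l = B v x := LinearMap.congr_fun hl' ⟨x, hx⟩
    rw [map_sub, e, hs, sub_self]
  have hp : ∀ A ∈ 𝒜, ∀ y ∈ perp B hl L, A y ∈ perp B hl L := fun A hAm y hy x hx => by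
    obtain ⟨A', hA', hAA⟩ := hA A hAm
    rw [hAA x y]
    exact hy _ (h2a A' hA' x hx)
  obtain ⟨x, hx, hx', hc, h0⟩ := key B hs hl 𝒜 ht hA (L ⊓ perp B hl L)
    (fun A hAm y hy => ⟨h2a A hAm y hy.1, hp A hAm y hy.2⟩) _ (perp B hl L) rfl hp inf_le_right
    (fun x hx y hy => hy x hx.1) _ h4 (fun h => hv' (by simpa using add_mem h.1 l.2))
    (hL' _ (sub_mem hv (hle l.2)))
  refine h3 (L ⊔ ℍᵐᵒᵖ ∙ x) ⟨h1.trans le_sup_left, fun A hAm y hy => ?_, fun y hy => ?_⟩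
    (lt_of_le_of_ne le_sup_left
    fun h => hx' ⟨h.ge (Submodule.mem_sup_right (Submodule.mem_span_singleton_self x)), hx⟩)
  · obtain ⟨y, hy', z, hz, rfl⟩ := Submodule.mem_sup.1 hy
    obtain ⟨d, rfl⟩ := Submodule.mem_span_singleton.1 hz
    obtain ⟨c, hc⟩ := hc A hAm
    rw [map_add, map_smul, ← sub_add_cancel (A x) (c • x), smul_add, ← add_assoc]
    exact Submodule.add_mem_sup (add_mem (h2a A hAm y hy') (L.smul_mem _ hc.1))
      (Submodule.smul_mem _ _ (Submodule.smul_mem _ _ (Submodule.mem_span_singleton_self x)))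
  · obtain ⟨y, hy', z, hz, rfl⟩ := Submodule.mem_sup.1 hy
    obtain ⟨d, rfl⟩ := Submodule.mem_span_singleton.1 hz
    have e1 : B y (d • x) = 0 := (perp B hl L).smul_mem d hx y hy'
    have e2 := line B hs hl x d.unop d.unop
    rw [Quaternion.self_mul_star, Quaternion.re_coe, op_unop] at e2
    simp only [map_add, LinearMap.add_apply, hs (d • x) y, e1, e2]
    nlinarith [h2b y hy', mul_nonneg (normSq_nonneg (a := d.unop)) h0]

end Pool.Agent.KS6_87.Ham
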