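import Mathlib

set_option autoImplicit false

namespace Pool.Agent.KS6_87.RvmSum

open MeasureTheory Set Filter
open scoped ENNReal

section Baire
variable {K : Type*}

theorem dense_iInter (good : Set K → Prop)
    (hch : ∀ f : ℕ → Set K, Monotone f → (∀ n, good (f n)) → good (⋃ n, f n))
    (Q : ℕ → Set K → Prop)
    (hup : ∀ n E E', E ⊆ E' → Q n E → Q n E')
    (hd : ∀ n E, good E → ∃ E', E ⊆ E' ∧ good E' ∧ Q n E') :
    ∀ E, good E → ∃ E', E ⊆ E' ∧ good E' ∧ ∀ n, Q n E' := by
  intro E hE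
  choose! nx hnx using hd
  let f : ℕ → Set K := fun n => Nat.rec E (fun n F => nx n F) n
  have hf0 : f 0 = E := rfl
  have hfs : ∀ n, f (n + 1) = nx n (f n) := fun n => rfl
  have hg : ∀ n, good (f n) := by
    intro n
    induction n with
    | zero => exact hE
    | succ n ih => rw [hfs]; exact (hnx n _ ih).2.1
  have hm : Monotone f := monotone_nat_of_le_succ fun n => by
    rw [hfs]; exact (hnx n _ (hg n)).1
  refine ⟨⋃ n, f n, hf0 ▸ subset_iUnion f 0, hch f hm hg, fun n => ?_⟩
  refine hup n (f (n + 1)) _ (subset_iUnion f (n + 1)) ?_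
  rw [hfs]; exact (hnx n _ (hg n)).2.2

theorem exists_max (good : Set K → Prop)
    (hch : ∀ f : ℕ → Set K, Monotone f → (∀ n, good (f n)) → good (⋃ n, f n))
    (M : Set K → ℝ≥0∞) (hM : Monotone M) (hb : ∀ E, M E ≤ 1) :
    ∀ E, good E → ∃ E', E ⊆ E' ∧ good E' ∧ ∀ E'', E' ⊆ E'' → good E'' → M E'' ≤ M E' := by
  intro E hE
  obtain ⟨E', h1, h2, h3⟩ := dense_iInter good hch
    (fun n F => ∀ E'', F ⊆ E'' → good E'' → M E'' ≤ M F + ((n : ℝ≥0∞) + 1)⁻¹)
    (fun n F F' hFF h E'' h1 h2 => (h E'' (hFF.trans h1) h2).trans (by gcongr; exact hM hFF))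
    (fun n F hF => by
      by_contra hcon
      push Not at hcon
      set s : ℝ≥0∞ := ⨆ G : {G : Set K // F ⊆ G ∧ good G}, M G.1 with hs
      have hs1 : s ≤ 1 := iSup_le fun G => hb _
      have hne : Nonempty {G : Set K // F ⊆ G ∧ good G} := ⟨⟨F, subset_rfl, hF⟩⟩
      have h4 : s + ((n : ℝ≥0∞) + 1)⁻¹ ≤ s := by
        rw [hs, ENNReal.iSup_add]
        refine iSup_le fun G => ?_
        obtain ⟨G', a1, a2, a3⟩ := hcon G.1 G.2.1 G.2.2
        exact a3.le.trans (le_iSup (fun G : {G : Set K // F ⊆ G ∧ good G} => M G.1)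
          ⟨G', G.2.1.trans a1, a2⟩)
      have h5 : s < s + ((n : ℝ≥0∞) + 1)⁻¹ :=
        ENNReal.lt_add_right (ne_top_of_le_ne_top ENNReal.one_ne_top hs1) (by simp)
      exact absurd h4 (not_le.2 h5)) E hE
  refine ⟨E', h1, h2, fun E'' a b => ?_⟩
  refine ENNReal.le_of_forall_pos_le_add fun ε hε _ => ?_
  obtain ⟨n, hn⟩ := ENNReal.exists_inv_nat_lt (a := (ε : ℝ≥0∞)) (by simpa using hε.ne')
  refine (h3 n E'' a b).trans ?_
  gcongr
  refine le_trans ?_ hn.le
  exact ENNReal.inv_le_inv.2 le_self_add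

end Baire

section Main
variable {G : Type} [AddCommGroup G] [DecidableEq G]

theorem closure_countable {s : Set G} (hs : s.Countable) :
    (AddSubmonoid.closure s : Set G).Countable := by
  have := hs.to_subtype
  refine (Set.countable_range (fun l : List s => (l.map Subtype.val).sum)).mono ?_
  intro x hx
  obtain ⟨l, hl, rfl⟩ := AddSubmonoid.exists_list_of_mem_closure hx
  refine ⟨l.pmap (fun x hx => ⟨x, hx⟩) hl, ?_⟩
  simp [List.map_pmap]

instance : MeasurableSpace (Finset G) := ⊤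
instance : DiscreteMeasurableSpace (Finset G) := ⟨fun _ => trivial⟩

variable [MeasurableSpace G] [DiscreteMeasurableSpace G] (ν : Measure G)

/-- iterated measure on finite sets -/
noncomputable def itm : ℕ → Finset G → Measure (Finset G)
  | 0, Z => Measure.dirac Z
  | k + 1, Z => ν.bind (fun x => itm k (insert x Z))

theorem itm_univ [IsProbabilityMeasure ν] (k : ℕ) : ∀ Z, itm ν k Z univ = 1 := by
  induction k with
  | zero => intro Z; simp [itm]
  | succ k ih =>
    intro Z
    rw [itm, Measure.bind_apply MeasurableSet.univ (Measurable.of_discrete.aemeasurable)]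
    simp [ih]

/-- full predicates -/
def Full (g : Finset G → Prop) : Prop := g ∅ ∧ ∀ Z, g Z → ∀ᵐ x ∂ν, g (insert x Z)

/-- good sets -/
def Good (g : Finset G → Prop) (E : Set G) : Prop := ∀ Z : Finset G, (Z : Set G) ⊆ E → g Z

omit [AddCommGroup G] [DiscreteMeasurableSpace G] in
theorem good_ext {g : Finset G → Prop} (hg : Full ν g) {E : Set G} (hE : E.Countable)
    (h : Good g E) : ∀ᵐ x ∂ν, Good g (insert x E) := by
  have hc : {Z : Finset G | (Z : Set G) ⊆ E}.Countable := by
    have := Set.countable_ofPred_finite_subset hE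
    refine Set.MapsTo.countable_of_injOn (f := fun Z : Finset G => (Z : Set G)) ?_ ?_ this
    · intro Z hZ; exact ⟨Z.finite_toSet, hZ⟩
    · intro a _ b _ hab; exact Finset.coe_injective hab
  have := (ae_ball_iff hc).2 (fun Z (hZ : (Z : Set G) ⊆ E) => hg.2 Z (h Z hZ))
  filter_upwards [this] with x hx Z hZ
  by_cases hxZ : x ∈ Z
  · have := hx (Z.erase x) (by
      intro y hy
      simp only [Finset.coe_erase, mem_diff, mem_singleton_iff] at hy
      rcases hZ hy.1 with h1 | h1
      · exact absurd h1 hy.2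
      · exact h1)
    rwa [Finset.insert_erase hxZ] at this
  · refine h Z fun y hy => ?_
    rcases hZ hy with h1 | h1
    · exact absurd (h1 ▸ hy) hxZ
    · exact h1

omit [AddCommGroup G] [DecidableEq G] [MeasurableSpace G] [DiscreteMeasurableSpace G] in
theorem finite_sub_chain {α : Type*} (f : ℕ → Set α) (hf : Monotone f) {S : Set α}
    (hS : S.Finite) (h : S ⊆ ⋃ n, f n) : ∃ n, S ⊆ f n := by
  induction S, hS using Set.Finite.induction_on with
  | empty => exact ⟨0, empty_subset _⟩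
  | insert _ _ ih =>
    obtain ⟨n, hn⟩ := ih ((subset_insert _ _).trans h)
    obtain ⟨m, hm⟩ := mem_iUnion.1 (h (mem_insert _ _))
    exact ⟨max n m, insert_subset (hf (le_max_right _ _) hm) (hn.trans (hf (le_max_left _ _)))⟩

omit [AddCommGroup G] [DecidableEq G] [MeasurableSpace G] [DiscreteMeasurableSpace G] in
theorem good_chain (g : Finset G → Prop) (f : ℕ → Set G) (hf : Monotone f)
    (h : ∀ n, (f n).Countable ∧ Good g (f n)) :
    (⋃ n, f n).Countable ∧ Good g (⋃ n, f n) := by
  refine ⟨countable_iUnion fun n => (h n).1, fun Z hZ => ?_⟩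
  obtain ⟨n, hn⟩ := finite_sub_chain f hf Z.finite_toSet hZ
  exact (h n).2 Z hn

omit [AddCommGroup G] [DecidableEq G] [MeasurableSpace G] [DiscreteMeasurableSpace G] in
/-- one round: countably many event families are exhausted -/
theorem step {ι : Type} (I : Set ι) (hI : I.Countable) (μ : ι → Measure (Finset G))
    (hμ : ∀ i, μ i univ = 1) (ev : ι → G → Set (Finset G)) (g : Finset G → Prop)
    (E : Set G) (hE : E.Countable ∧ Good g E) :
    ∃ E', E ⊆ E' ∧ (E'.Countable ∧ Good g E') ∧ ∀ i ∈ I, ∀ x, x ∉ E → Good g (insert x E') →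
      ∀ᵐ W ∂(μ i), W ∈ ev i x → ∃ y ∈ E', y ∉ E ∧ W ∈ ev i y := by
  rcases I.eq_empty_or_nonempty with rfl | hne
  · exact ⟨E, subset_rfl, hE, by simp⟩
  obtain ⟨e, he⟩ := hI.exists_eq_range hne
  obtain ⟨E', h1, h2, h3⟩ := dense_iInter (fun F : Set G => F.Countable ∧ Good g F)
    (good_chain g)
    (fun n F => ∀ x, x ∉ E → Good g (insert x F) →
      ∀ᵐ W ∂(μ (e n)), W ∈ ev (e n) x → ∃ y ∈ F, y ∉ E ∧ W ∈ ev (e n) y)
    (fun n F F' hFF h x hx hg => by
      have := h x hx (fun Z hZ => hg Z (hZ.trans (insert_subset_insert hFF)))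
      filter_upwards [this] with W hW hW'
      obtain ⟨y, a, b, c⟩ := hW hW'
      exact ⟨y, hFF a, b, c⟩)
    (fun n F hF => by
      obtain ⟨F', a1, a2, a3⟩ := exists_max (fun F : Set G => F.Countable ∧ Good g F)
        (good_chain g) (fun F => μ (e n) {W | ∃ y ∈ F, y ∉ E ∧ W ∈ ev (e n) y})
        (fun A B hAB => measure_mono fun W ⟨y, a, b, c⟩ => ⟨y, hAB a, b, c⟩)
        (fun A => (measure_mono (subset_univ _)).trans (hμ _).le) F hF
      refine ⟨F', a1, a2, fun x hx hg => ?_⟩
      have h4 := a3 (insert x F') (subset_insert _ _) ⟨a2.1.insert x, hg⟩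
      set A := {W | ∃ y ∈ F', y ∉ E ∧ W ∈ ev (e n) y} with hA
      set B := {W | ∃ y ∈ insert x F', y ∉ E ∧ W ∈ ev (e n) y} with hB
      have hAB : A ⊆ B := by
        rintro W ⟨y, a, b, c⟩
        exact ⟨y, mem_insert_of_mem _ a, b, c⟩
      have hfin : μ (e n) A ≠ ⊤ :=
        ne_top_of_le_ne_top ENNReal.one_ne_top ((measure_mono (subset_univ _)).trans (hμ _).le)
      have h0 : μ (e n) (B \ A) = 0 := by
        rw [measure_diff hAB (MeasurableSet.of_discrete.nullMeasurableSet) hfin]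
        exact tsub_eq_zero_of_le h4
      rw [ae_iff]
      refine measure_mono_null ?_ h0
      intro W hW
      simp only [mem_ofPred_eq, Classical.not_imp] at hW
      exact ⟨⟨x, mem_insert _ _, hx, hW.1⟩, hW.2⟩) E hE
  refine ⟨E', h1, h2, fun i hi => ?_⟩
  rw [he] at hi
  obtain ⟨n, rfl⟩ := hi
  exact h3 n

variable {γ : Type} [Countable γ] (c : G → γ)

/-- `x` imitates `p` over `s` -/
def Im (s p x : G) : Prop := c (s + x) = c (s + p) ∧ c (s + x + x) = c (s + p + p)

/-- the slot property -/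
def Slot (A C : Set G) (p : G) : Prop :=
  ∀ S : Set G, S.Finite → S ⊆ AddSubmonoid.closure A → {x | x ∈ C ∧ ∀ s ∈ S, Im c s p x}.Infinite

theorem slot [IsProbabilityMeasure ν] [NullSingletonClass ν] {g : Finset G → Prop} (hg : Full ν g)
    {D : Set G} (hD : D.Countable) :
    ∃ C : Set G, ∃ p : G, C.Countable ∧ Good g (insert p C) ∧
      ∀ k, ∀ᵐ W : Finset G ∂(itm ν k ∅), Slot c (D ∪ C ∪ (W : Set G)) C p := by
  have hen : ∀ W : Finset G, ∃ e : ℕ → G, (AddSubmonoid.closure (W : Set G) : Set G) = range e :=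
    fun W => (closure_countable W.countable_toSet).exists_eq_range ⟨0, zero_mem _⟩
  choose e he using hen
  let ev : ℕ × Set (G × ℕ × γ × γ) → G → Set (Finset G) := fun i x =>
    {W | ∀ q ∈ i.2, c (q.1 + e W q.2.1 + x) = q.2.2.1 ∧ c (q.1 + e W q.2.1 + x + x) = q.2.2.2}
  let I : Set G → Set (ℕ × Set (G × ℕ × γ × γ)) := fun E =>
    univ ×ˢ {L | L.Finite ∧ L ⊆ (AddSubmonoid.closure (D ∪ E) : Set G) ×ˢ univ}
  have hI : ∀ E : Set G, E.Countable → (I E).Countable := fun E hE =>
    countable_univ.prod (Set.countable_ofPred_finite_subset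
      ((closure_countable (hD.union hE)).prod countable_univ))
  have hst := fun E (hE : E.Countable ∧ Good g E) =>
    step (I E) (hI E hE.1) (fun i => itm ν i.1 ∅) (fun i => itm_univ ν _ _) ev g E hE
  choose! nx hnx using hst
  let f : ℕ → Set G := fun n => Nat.rec ∅ (fun _ F => nx F) n
  have hfs : ∀ n, f (n + 1) = nx (f n) := fun n => rfl
  have hgf : ∀ n, (f n).Countable ∧ Good g (f n) := by
    intro n
    induction n with
    | zero =>
      refine ⟨countable_empty, fun Z hZ => ?_⟩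
      have : Z = ∅ := by simpa [f] using hZ
      rw [this]; exact hg.1
    | succ n ih => rw [hfs]; exact (hnx _ ih).2.1
  have hm : Monotone f := monotone_nat_of_le_succ fun n => by
    rw [hfs]; exact (hnx _ (hgf n)).1
  have hC := good_chain g f hm hgf
  have h1 := good_ext ν hg hC.1 hC.2
  have h2 : ∀ᵐ x ∂ν, x ∉ ⋃ n, f n := hC.1.ae_notMem ν
  obtain ⟨p, hp1, hp2⟩ := (h1.and h2).exists
  refine ⟨⋃ n, f n, p, hC.1, hp1, fun k => ?_⟩
  have h3 : ∀ n, ∀ᵐ W ∂(itm ν k ∅), ∀ L ∈ {L : Set (G × ℕ × γ × γ) | L.Finite ∧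
      L ⊆ (AddSubmonoid.closure (D ∪ f n) : Set G) ×ˢ univ},
      W ∈ ev (k, L) p → ∃ y ∈ f (n + 1), y ∉ f n ∧ W ∈ ev (k, L) y := by
    intro n
    rw [ae_ball_iff (Set.countable_ofPred_finite_subset
      ((closure_countable (hD.union (hgf n).1)).prod countable_univ))]
    intro L hL
    refine (hnx _ (hgf n)).2.2 (k, L) ⟨mem_univ _, hL⟩ p
      (fun h => hp2 (mem_iUnion.2 ⟨n, h⟩)) (fun Z hZ => hp1 Z (hZ.trans ?_))
    exact insert_subset_insert (by rw [← hfs]; exact subset_iUnion f (n + 1))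
  filter_upwards [ae_all_iff.2 h3] with W hW S hS hSA hfin
  have hdec : ∀ s ∈ S, ∃ u : G, ∃ j : ℕ, (∃ n, u ∈ AddSubmonoid.closure (D ∪ f n)) ∧
      s = u + e W j := by
    intro s hs
    have := hSA hs
    rw [AddSubmonoid.closure_union, SetLike.mem_coe, AddSubmonoid.mem_sup] at this
    obtain ⟨u, hu, w, hw, rfl⟩ := this
    have hw' : w ∈ range (e W) := by rw [← he]; exact hw
    obtain ⟨j, rfl⟩ := hw'
    refine ⟨u, j, ?_, rfl⟩
    rw [union_iUnion, AddSubmonoid.closure_iUnion] at hu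
    refine (AddSubmonoid.mem_iSup_of_directed ?_).1 hu
    exact Monotone.directed_le fun a b hab =>
      AddSubmonoid.closure_mono (union_subset_union_right _ (hm hab))
  choose! u j hu hs using hdec
  obtain ⟨n1, hn1⟩ := finite_sub_chain (fun n => (AddSubmonoid.closure (D ∪ f n) : Set G))
    (fun a b hab => AddSubmonoid.closure_mono (union_subset_union_right _ (hm hab)))
    (hS.image u) (by rintro _ ⟨s, h, rfl⟩; exact mem_iUnion.2 (hu s h))
  obtain ⟨n2, hn2⟩ := finite_sub_chain f hm hfin (fun x hx => hx.1)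
  obtain ⟨y, hy1, hy2, hy3⟩ := hW (max n1 n2)
    ((fun s => (u s, j s, c (s + p), c (s + p + p))) '' S)
    ⟨hS.image _, by
      rintro _ ⟨s, h, rfl⟩
      exact ⟨AddSubmonoid.closure_mono (union_subset_union_right _ (hm (le_max_left _ _)))
        (hn1 ⟨s, h, rfl⟩), mem_univ _⟩⟩
    (by
      rintro _ ⟨s, h, rfl⟩
      simp only [← hs s h, and_self])
  refine hy2 (hm (le_max_right _ _) (hn2 ⟨mem_iUnion.2 ⟨max n1 n2 + 1, hy1⟩, fun s h => ?_⟩))
  have := hy3 _ ⟨s, h, rfl⟩
  simp only [← hs s h] at this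
  exact this

omit [DecidableEq G] [MeasurableSpace G] [DiscreteMeasurableSpace G] [Countable γ] in
theorem Slot.mono {A A' C : Set G} {p : G} (h : Slot c A C p) (hA : A' ⊆ A) : Slot c A' C p :=
  fun S hS hSA => h S hS (hSA.trans (AddSubmonoid.closure_mono hA))

omit [MeasurableSpace G] [DiscreteMeasurableSpace G] [Countable γ] in
theorem slot_of_fin {A F C : Set G} {p : G}
    (h : ∀ Z : Finset G, (Z : Set G) ⊆ F → Slot c (A ∪ (Z : Set G)) C p) : Slot c (A ∪ F) C p := by
  intro S hS hSA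
  have : ∀ s ∈ S, ∃ Z : Finset G, (Z : Set G) ⊆ F ∧ s ∈ AddSubmonoid.closure (A ∪ (Z : Set G)) := by
    intro s hs
    have := hSA hs
    rw [AddSubmonoid.closure_union, SetLike.mem_coe, AddSubmonoid.mem_sup] at this
    obtain ⟨u, hu, w, hw, rfl⟩ := this
    obtain ⟨l, hl, rfl⟩ := AddSubmonoid.exists_list_of_mem_closure hw
    refine ⟨l.toFinset, fun x hx => hl x (by simpa using hx), add_mem ?_ ?_⟩
    · exact AddSubmonoid.closure_mono subset_union_left hu
    · exact list_sum_mem fun x hx => AddSubmonoid.subset_closure (Or.inr (by simpa using hx))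
  choose! Z hZ using this
  refine h (hS.toFinset.biUnion Z) ?_ S hS ?_
  · intro x hx
    simp only [Finset.coe_biUnion, Finite.coe_toFinset, mem_iUnion] at hx
    obtain ⟨s, hs, hx⟩ := hx
    exact (hZ s hs).1 hx
  · intro s hs
    refine AddSubmonoid.closure_mono (union_subset_union_right _ ?_) (hZ s hs).2
    intro x hx
    simp only [Finset.coe_biUnion, Finite.coe_toFinset, mem_iUnion]
    exact ⟨s, hs, hx⟩

theorem slots [IsProbabilityMeasure ν] [NullSingletonClass ν] (n : ℕ) :
    ∀ g : Finset G → Prop, Full ν g → ∀ D : Set G, D.Countable →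
    ∃ H : Set G, ∃ p : ℕ → G, Good g (H ∪ p '' {l | l < n}) ∧
      ∀ l < n, Slot c (D ∪ H ∪ p '' {l' | l' < n ∧ l' ≠ l}) H (p l) := by
  induction n with
  | zero =>
    intro g hg D _
    refine ⟨∅, fun _ => 0, fun Z hZ => ?_, by simp⟩
    have : Z = ∅ := by simpa using hZ
    rw [this]; exact hg.1
  | succ n ih =>
    intro g hg D hD
    obtain ⟨C, q, hC, hq, hs⟩ := slot ν c hg hD
    have hc : {Z : Finset G | (Z : Set G) ⊆ insert q C}.Countable := by
      have := Set.countable_ofPred_finite_subset (hC.insert q)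
      refine Set.MapsTo.countable_of_injOn (f := fun Z : Finset G => (Z : Set G)) ?_ ?_ this
      · intro Z hZ; exact ⟨Z.finite_toSet, hZ⟩
      · intro a _ b _ hab; exact Finset.coe_injective hab
    obtain ⟨H, p, h1, h2⟩ := ih (fun Z => (∀ Z0 : Finset G, (Z0 : Set G) ⊆ insert q C → g (Z ∪ Z0)) ∧
        ∀ k, ∀ᵐ W : Finset G ∂(itm ν k Z), Slot c (D ∪ C ∪ (W : Set G)) C q)
      ⟨⟨fun Z0 h => by simpa using hq Z0 h, hs⟩, fun Z hZ => by
        have a1 := (ae_ball_iff hc).2
          (fun Z0 (h : (Z0 : Set G) ⊆ insert q C) => hg.2 _ (hZ.1 Z0 h))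
        have a2 := ae_all_iff.2 fun k => Measure.ae_ae_of_ae_bind
          (Measurable.of_discrete.aemeasurable) (hZ.2 (k + 1))
        filter_upwards [a1, a2] with x b1 b2
        exact ⟨fun Z0 h => by rw [Finset.insert_union]; exact b1 Z0 h, b2⟩⟩
      (D ∪ insert q C) (hD.union (hC.insert q))
    refine ⟨H ∪ C, Function.update p n q, fun Z hZ => ?_, fun l hl => ?_⟩
    · classical
      have := (h1 (Z.filter (fun x => x ∉ insert q C)) ?_).1 (Z.filter (fun x => x ∈ insert q C))
        (fun x hx => (Finset.mem_filter.1 hx).2)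
      · rwa [Finset.union_comm, Finset.filter_union_filter_not_eq] at this
      · intro x hx
        obtain ⟨a, b⟩ := Finset.mem_filter.1 hx
        rcases hZ a with (h | h) | ⟨l, hl, rfl⟩
        · exact Or.inl h
        · exact absurd (mem_insert_of_mem _ h) b
        · by_cases hln : l = n
          · subst hln; simp at b
          · rw [Function.update_of_ne hln]
            exact Or.inr ⟨l, by simp only [mem_ofPred_eq] at hl ⊢; omega, rfl⟩
    · by_cases hln : l = n
      · subst hln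
        rw [Function.update_self]
        have h3 : Slot c (D ∪ C ∪ (H ∪ p '' {l' | l' < l})) C q := by
          refine slot_of_fin c fun Z hZ => ?_
          have := (h1 Z hZ).2 0
          simpa [itm, ae_dirac_eq] using this
        intro S hS hSA
        refine (h3 S hS (hSA.trans (AddSubmonoid.closure_mono ?_))).mono
          fun x hx => ⟨Or.inr hx.1, hx.2⟩
        rintro x ((h | h | h) | ⟨l', hl', rfl⟩)
        · exact Or.inl (Or.inl h)
        · exact Or.inr (Or.inl h)
        · exact Or.inl (Or.inr h)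
        · rw [Function.update_of_ne hl'.2]
          exact Or.inr (Or.inr ⟨l', by simp only [mem_ofPred_eq] at hl' ⊢; omega, rfl⟩)
      · rw [Function.update_of_ne hln]
        intro S hS hSA
        refine (h2 l (by omega) S hS (hSA.trans (AddSubmonoid.closure_mono ?_))).mono
          fun x hx => ⟨Or.inl hx.1, hx.2⟩
        rintro x ((h | h | h) | ⟨l', hl', rfl⟩)
        · exact Or.inl (Or.inl (Or.inl h))
        · exact Or.inl (Or.inr h)
        · exact Or.inl (Or.inl (Or.inr (mem_insert_of_mem _ h)))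
        · by_cases h' : l' = n
          · subst h'
            rw [Function.update_self]
            exact Or.inl (Or.inl (Or.inr (mem_insert _ _)))
          · rw [Function.update_of_ne h']
            exact Or.inr ⟨l', by simp only [mem_ofPred_eq] at hl' ⊢; omega, rfl⟩

end Main

section Comb
variable {G : Type} [AddCommGroup G] {γ : Type} (c : G → γ)

theorem exists_uf {A H : Set G} {p : G} (h : Slot c A H p) :
    ∃ U : Ultrafilter G, (∀ᶠ x in U, x ∈ H) ∧ (∀ y : G, ∀ᶠ x : G in U, x ≠ y) ∧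
      ∀ s ∈ AddSubmonoid.closure A, ∀ᶠ x in U, Im c s p x := by
  let F : Filter G := 𝓟 H ⊓ cofinite ⊓
    ⨅ s ∈ (AddSubmonoid.closure A : Set G), 𝓟 {x | Im c s p x}
  have hF : F.NeBot := by
    rw [neBot_iff]
    intro h0
    have : (∅ : Set G) ∈ F := by rw [h0]; exact mem_bot
    obtain ⟨a, ha, b, hb, hab⟩ := mem_inf_iff.1 this
    obtain ⟨a1, ha1, a2, ha2, rfl⟩ := mem_inf_iff.1 ha
    rw [← iInf_subtype'', mem_iInf] at hb
    obtain ⟨I, hI, V, hV, rfl⟩ := hb
    have h1 := h (Subtype.val '' I) (hI.image _) (by rintro _ ⟨s, _, rfl⟩; exact s.2)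
    obtain ⟨x, hx1, hx2⟩ := (h1.diff (mem_cofinite.1 ha2)).nonempty
    have : x ∈ (∅ : Set G) := by
      rw [hab]
      refine ⟨⟨ha1 hx1.1, not_not.1 hx2⟩, mem_iInter.2 fun i => hV i ?_⟩
      exact hx1.2 _ ⟨i.1, i.2, rfl⟩
    exact this
  refine ⟨Ultrafilter.of F, ?_, fun y => ?_, fun s hs => ?_⟩
  · exact Ultrafilter.of_le F (mem_inf_of_left (mem_inf_of_left (mem_principal_self _)))
  · exact Ultrafilter.of_le F (mem_inf_of_left (mem_inf_of_right (eventually_cofinite_ne y)))
  · exact Ultrafilter.of_le F (mem_inf_of_right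
      (mem_iInf_of_mem s (mem_iInf_of_mem hs (mem_principal_self _))))

/-- iterated sums of ultrafilters -/
noncomputable def V (U : ℕ → Ultrafilter G) (i : ℕ) : ℕ → Ultrafilter G
  | 0 => pure 0
  | d + 1 => (V U i d).bind fun T => (U (i + d)).map (T + ·)

theorem V_succ (U : ℕ → Ultrafilter G) (i d : ℕ) (q : G → Prop) :
    (∀ᶠ y in V U i (d + 1), q y) ↔ ∀ᶠ T in V U i d, ∀ᶠ x in U (i + d), q (T + x) := by
  simp only [V, Ultrafilter.bind, Ultrafilter.coe_map]
  exact eventually_bind

theorem V_add (U : ℕ → Ultrafilter G) (i d e : ℕ) : ∀ q : G → Prop,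
    (∀ᶠ y in V U i (d + e), q y) ↔ ∀ᶠ T in V U i d, ∀ᶠ x in V U (i + d) e, q (T + x) := by
  induction e with
  | zero => intro q; simp [V]
  | succ e ih =>
    intro q
    rw [← add_assoc, V_succ, ih]
    simp only [V_succ, add_assoc]

theorem final (V : Ultrafilter G) (B : AddSubmonoid G) (a P : G) (k : γ) (ha : a ∈ B)
    (h1 : ∀ᶠ T in V, T ∈ B) (h2 : ∀ y : G, ∀ᶠ T : G in V, T ≠ y) (h3 : ∀ s ∈ B, ∀ᶠ T in V, Im c s P T)
    (h4 : c (a + P + P) = k) (h5 : ∀ᶠ T in V, c (a + T + P) = k) :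
    ∃ X : Set G, X.Infinite ∧ ∀ x ∈ X, ∀ y ∈ X, c (a + x + y) = k := by
  obtain ⟨f, hf1, hf2⟩ := exists_seq_of_forall_finset_exists
    (fun T => T ∈ B ∧ c (a + T + P) = k ∧ c (a + T + T) = k)
    (fun S T => T ≠ S ∧ c (a + S + T) = k) (fun s hs => by
      have h6 : ∀ᶠ T in V, ∀ S ∈ s, T ≠ S ∧ c (a + S + T) = k := by
        rw [eventually_all_finset]
        intro S hS
        filter_upwards [h2 S, h3 _ (add_mem ha (hs S hS).1)] with T b1 b2
        exact ⟨b1, b2.1.trans (hs S hS).2.1⟩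
      obtain ⟨T, b1, b2, b3, b4⟩ := (h1.and (h5.and ((h3 a ha).and h6))).exists
      exact ⟨T, ⟨b1, b2, b3.2.trans h4⟩, b4⟩)
  refine ⟨range f, infinite_range_of_injective fun m n hmn => ?_, ?_⟩
  · by_contra hne
    rcases lt_or_gt_of_ne hne with h | h
    · exact (hf2 _ _ h).1 hmn.symm
    · exact (hf2 _ _ h).1 hmn
  · rintro _ ⟨m, rfl⟩ _ ⟨n, rfl⟩
    rcases lt_trichotomy m n with h | rfl | h
    · exact (hf2 _ _ h).2
    · exact (hf1 m).2.2
    · rw [add_right_comm]; exact (hf2 _ _ h).2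

theorem comb (r : ℕ) (c : G → Fin r) (H : Set G) (p : ℕ → G)
    (h : ∀ l < r, Slot c (H ∪ p '' {l' | l' < r ∧ l' ≠ l}) H (p l)) :
    ∃ a : G, ∃ k, ∃ X : Set G, X.Infinite ∧ ∀ x ∈ X, ∀ y ∈ X, c (a + x + y) = k := by
  have hU := fun l (hl : l < r) => exists_uf c (h l hl)
  have : Nonempty (Ultrafilter G) := ⟨pure 0⟩
  choose! U hU1 hU2 hU3 using hU
  let P : ℕ → ℕ → G := fun i d => ∑ l ∈ Finset.range d, p (i + l)
  have hPadd : ∀ i d e, P i (d + e) = P i d + P (i + d) e := by
    intro i d e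
    simp only [P, Finset.sum_range_add, add_assoc]
  let B : ℕ → ℕ → AddSubmonoid G := fun i d =>
    AddSubmonoid.closure (H ∪ p '' {l | l < r ∧ (l < i ∨ i + d ≤ l)})
  have hH : ∀ i d, i + d ≤ r → ∀ᶠ T in V U i d, T ∈ AddSubmonoid.closure H := by
    intro i d
    induction d with
    | zero => intro _; simp [V]
    | succ d ih =>
      intro hd
      rw [V_succ]
      filter_upwards [ih (by omega)] with T hT
      filter_upwards [hU1 (i + d) (by omega)] with x hx
      exact add_mem hT (AddSubmonoid.subset_closure hx)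
  have hIm : ∀ i d, i + d ≤ r → ∀ s ∈ B i d, ∀ᶠ T in V U i d, Im c s (P i d) T := by
    intro i d
    induction d with
    | zero => intro _ s _; simp [V, P, Im]
    | succ d ih =>
      intro hd s hs
      rw [V_succ]
      have hs' : s ∈ B i d := AddSubmonoid.closure_mono (union_subset_union_right _
        (image_mono fun l hl => by simp only [mem_ofPred_eq] at hl ⊢; omega)) hs
      have hp : p (i + d) ∈ B i d := AddSubmonoid.subset_closure
        (Or.inr ⟨i + d, by simp only [mem_ofPred_eq]; omega, rfl⟩)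
      have hs'' : s ∈ AddSubmonoid.closure (H ∪ p '' {l' | l' < r ∧ l' ≠ i + d}) :=
        AddSubmonoid.closure_mono (union_subset_union_right _
          (image_mono fun l hl => by simp only [mem_ofPred_eq] at hl ⊢; omega)) hs
      filter_upwards [hH i d (by omega), ih (by omega) _ (add_mem hs' hp),
        ih (by omega) _ (add_mem (add_mem hs' hp) hp)] with T hT a1 a2
      have hT' : T ∈ AddSubmonoid.closure (H ∪ p '' {l' | l' < r ∧ l' ≠ i + d}) :=
        AddSubmonoid.closure_mono subset_union_left hT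
      filter_upwards [hU3 (i + d) (by omega) _ (add_mem hs'' hT'),
        hU3 (i + d) (by omega) _ (add_mem (add_mem hs'' hT') hT')] with x b1 b2
      have e1 : P i (d + 1) = P i d + p (i + d) := Finset.sum_range_succ _ _
      constructor
      · have := b1.1
        have h2 := a1.1
        rw [e1, ← add_assoc, this, add_right_comm, h2]
        congr 1; abel
      · have := b2.2
        have h2 := a2.2
        rw [e1, show s + (T + x) + (T + x) = s + T + T + x + x by abel, this,
          show s + T + T + p (i + d) + p (i + d) = s + p (i + d) + p (i + d) + T + T by abel, h2]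
        congr 1; abel
  have hcol : ∀ j : Fin (r + 1), ∃ k : Fin r,
      ∀ᶠ T in V U 0 j, c (T + P 0 j + (P j (r - j) + P j (r - j))) = k := by
    intro j
    have := Ultrafilter.eventually_exists_iff (f := V U 0 j)
      (P := fun (k : Fin r) T => c (T + P 0 j + (P j (r - j) + P j (r - j))) = k)
    exact this.1 (Eventually.of_forall fun T => ⟨_, rfl⟩)
  choose col hcol using hcol
  obtain ⟨i, j, hij, hc⟩ : ∃ i j : Fin (r + 1), i < j ∧ col i = col j := by
    obtain ⟨i, j, a, b⟩ := Fintype.exists_ne_map_eq_of_card_lt col (by simp)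
    rcases lt_or_gt_of_ne a with h | h
    · exact ⟨i, j, h, b⟩
    · exact ⟨j, i, h, b.symm⟩
  obtain ⟨d, hd⟩ : ∃ d, (j : ℕ) = i + (d + 1) := ⟨j - i - 1, by have := Fin.lt_def.1 hij; omega⟩
  have hj : (j : ℕ) ≤ r := by omega
  have c1 := hcol i
  have c2 := hcol j
  rw [hd, V_add, zero_add, ← hc] at c2
  obtain ⟨T0, t1, t2, t3⟩ := (c1.and (c2.and (hH 0 i (by omega)))).exists
  have hPB : ∀ i' d', i' + d' ≤ r → (i' + d' ≤ i ∨ i + (d + 1) ≤ i') → P i' d' ∈ B i (d + 1) := by
    intro i' d' a b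
    refine sum_mem fun l hl => AddSubmonoid.subset_closure (Or.inr ⟨i' + l, ?_, rfl⟩)
    have := Finset.mem_range.1 hl
    simp only [mem_ofPred_eq]; omega
  refine ⟨T0 + P 0 i + (P j (r - j) + P j (r - j)), col i,
    final c (V U i (d + 1)) (B i (d + 1)) _ (P i (d + 1)) _ ?_ ?_ ?_ (hIm i _ (by omega)) ?_ ?_⟩
  · refine add_mem (add_mem (AddSubmonoid.closure_mono subset_union_left t3)
      (hPB _ _ (by omega) (by omega))) (add_mem ?_ ?_) <;> exact hPB _ _ (by omega) (by omega)
  · filter_upwards [hH i (d + 1) (by omega)] with T hT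
    exact AddSubmonoid.closure_mono subset_union_left hT
  · intro y
    rw [V_succ]
    refine Eventually.of_forall fun T => ?_
    filter_upwards [hU2 (i + d) (by omega) (y - T)] with x hx h
    exact hx (by rw [← h]; abel)
  · rw [← t1, show r - i = (d + 1) + (r - j) by omega, hPadd i (d + 1), hd]
    congr 1; abel
  · filter_upwards [t2] with T hT
    rw [← hT, hPadd 0 i, zero_add, hd]
    congr 1; abel

end Comb

theorem main {G : Type} [AddCommGroup G] [MeasurableSpace G] [DiscreteMeasurableSpace G]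
    (ν : Measure G) [IsProbabilityMeasure ν] [NullSingletonClass ν] (r : ℕ) (c : G → Fin r) :
    ∃ a : G, ∃ k, ∃ X : Set G, X.Infinite ∧ ∀ x ∈ X, ∀ y ∈ X, c (a + x + y) = k := by
  classical
  obtain ⟨H, p, -, h⟩ := slots ν c r (fun _ => True) ⟨trivial, fun _ _ => by simp⟩ ∅
    countable_empty
  exact comb r c H p (by simpa using h)

end Pool.Agent.KS6_87.RvmSum
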